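import Mathlib
import Pool.Agent.Helper2.NNQ.Stm
import Pool.Agent.Helper61A.NNP.KS

/-!
# The lemma of Borel and Cantelli for sets quasi-independent on average, with Lebesgue's density theorem

Proof of `Pool.Agent.Helper2.NNQ.S_KS2`.
-/

set_option autoImplicit false

open MeasureTheory Set Filter Topology

namespace Pool.Agent.Helper20.NNQ

/-- the sum of the pairs -/
theorem pair_sum (T : Finset ℕ) (N : ℕ) (hT : T ⊆ Finset.range N) (p : ℕ → ℕ → ℝ) (hp : ∀ m n, 0 ≤ p m n) :
    ∑ j ∈ T, ∑ i ∈ T, (if i < j then p i j else 0) ≤ ∑ n ∈ Finset.range N, ∑ m ∈ Finset.range n, p m n := by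
  classical
  have h1 : ∀ j ∈ T, ∑ i ∈ T, (if i < j then p i j else 0) ≤ ∑ m ∈ Finset.range j, p m j := by
    intro j _
    rw [← Finset.sum_filter]
    apply Finset.sum_le_sum_of_subset_of_nonneg
    · intro i hi
      rw [Finset.mem_filter] at hi
      exact Finset.mem_range.mpr hi.2
    · intro i _ _
      exact hp i j
  refine (Finset.sum_le_sum h1).trans ?_
  apply Finset.sum_le_sum_of_subset_of_nonneg hT
  intro n _ _
  exact Finset.sum_nonneg fun m _ => hp m n

/-- Kochen and Stone: a lower bound for the measure of the limsup set. -/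
theorem limsup_lower2 {α : Type*} [MeasurableSpace α] (μ : Measure α) [IsFiniteMeasure μ]
    (n₀ : ℕ) (E : ℕ → Set α) (w : ℕ → ℝ) (p : ℕ → ℕ → ℝ)
    (c C C' V : ℝ) (hc : 0 < c) (hC : 0 < C) (hC' : 0 < C') (hV : 0 < V) (hw : ∀ i, 0 ≤ w i)
    (hp : ∀ m n, 0 ≤ p m n)
    (hm : ∀ i, MeasurableSet (E i))
    (hlow : ∀ i, n₀ ≤ i → c * V * w i ≤ μ.real (E i))
    (hup : ∀ i, n₀ ≤ i → μ.real (E i) ≤ C * V * w i)
    (hpair : ∀ i j, n₀ ≤ i → i < j → μ.real (E i ∩ E j) ≤ C * V * p i j)
    (hsum : ∀ N : ℕ, ∑ n ∈ Finset.range N, ∑ m ∈ Finset.range n, p m n ≤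
      C' * (1 + ∑ n ∈ Finset.range N, w n) ^ 2)
    (hdiv : ¬ Summable w) :
    c ^ 2 / (C * (1 + 8 * C')) * V ≤ μ.real {x | ∃ᶠ n in atTop, x ∈ E n} := by
  classical
  have htend : Tendsto (fun N => ∑ n ∈ Finset.range N, w n) atTop atTop :=
    (not_summable_iff_tendsto_nat_atTop_of_nonneg hw).mp hdiv
  have hdiv' : ∀ k₀ : ℕ, ∃ (T : Finset ℕ) (N : ℕ), T ⊆ Finset.range N ∧ (∀ i ∈ T, n₀ ≤ i ∧ k₀ ≤ i) ∧
      1 ≤ ∑ i ∈ T, w i ∧ 1 + ∑ n ∈ Finset.range N, w n ≤ 2 * ∑ i ∈ T, w i := by
    intro k₀
    obtain ⟨N, hN, hN2⟩ := ((htend.eventually_ge_atTop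
      (1 + 2 * ∑ n ∈ Finset.range (max n₀ k₀), w n)).and (eventually_ge_atTop (max n₀ k₀))).exists
    refine ⟨Finset.Ico (max n₀ k₀) N, N, ?_, ?_, ?_, ?_⟩
    · intro i hi
      exact Finset.mem_range.mpr (Finset.mem_Ico.mp hi).2
    · intro i hi
      have := (Finset.mem_Ico.mp hi).1
      exact ⟨(le_max_left _ _).trans this, (le_max_right _ _).trans this⟩
    · have e := Finset.sum_range_add_sum_Ico w hN2
      have h0 : 0 ≤ ∑ n ∈ Finset.range (max n₀ k₀), w n := Finset.sum_nonneg fun i _ => hw i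
      linarith
    · have e := Finset.sum_range_add_sum_Ico w hN2
      linarith
  let U : ℕ → Set α := fun k => ⋃ i, ⋃ (_ : n₀ ≤ i ∧ k ≤ i), E i
  have hUm : ∀ k, MeasurableSet (U k) := fun k =>
    MeasurableSet.iUnion fun i => MeasurableSet.iUnion fun hi => hm i
  have hUlow : ∀ k, c ^ 2 / (C * (1 + 8 * C')) * V ≤ μ.real (U k) := by
    intro k
    obtain ⟨T, N, hTN, hT, hM, hM2⟩ := hdiv' k
    set W := ∑ i ∈ T, w i with hW
    have hch := Pool.Agent.Helper61A.NNP.ks_chung (μ := μ) T E fun i hi => hm i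
    have h1 : c * V * W ≤ ∑ i ∈ T, μ.real (E i) := by
      rw [hW, Finset.mul_sum]
      exact Finset.sum_le_sum fun i hi => hlow i (hT i hi).1
    have hP := (pair_sum T N hTN p hp).trans (hsum N)
    set P := ∑ j ∈ T, ∑ i ∈ T, (if i < j then p i j else 0) with hPdef
    have hS0 : 0 ≤ ∑ n ∈ Finset.range N, w n := Finset.sum_nonneg fun i _ => hw i
    have hP2 : P ≤ C' * (2 * W) ^ 2 := by
      refine hP.trans ?_
      apply mul_le_mul_of_nonneg_left _ hC'.le
      exact pow_le_pow_left₀ (by linarith) hM2 2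
    have h2 : ∑ i ∈ T, ∑ j ∈ T, μ.real (E i ∩ E j) ≤ C * V * W + 2 * (C * V * P) := by
      have h4 : ∀ i ∈ T, ∀ j ∈ T, μ.real (E i ∩ E j) ≤
          (if i = j then C * V * w i else 0) + (C * V * (if i < j then p i j else 0) +
            C * V * (if j < i then p j i else 0)) := by
        intro i hi j hj
        rcases lt_trichotomy i j with h | h | h
        · have := hpair i j (hT i hi).1 h
          rw [if_neg h.ne, if_pos h, if_neg (by omega)]
          linarith
        · subst h
          rw [if_pos rfl, if_neg (lt_irrefl _), inter_self]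
          have := hup i (hT i hi).1
          linarith
        · have := hpair j i (hT j hj).1 h
          rw [inter_comm] at this
          rw [if_neg h.ne', if_neg (by omega), if_pos h]
          linarith
      refine (Finset.sum_le_sum fun i hi => Finset.sum_le_sum fun j hj => h4 i hi j hj).trans ?_
      have e1 : ∑ i ∈ T, ∑ j ∈ T, (if i = j then C * V * w i else 0) = C * V * W := by
        rw [hW, Finset.mul_sum]
        refine Finset.sum_congr rfl fun i hi => ?_
        rw [Finset.sum_ite_eq, if_pos hi]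
      have e2 : ∑ i ∈ T, ∑ j ∈ T, C * V * (if i < j then p i j else 0) = C * V * P := by
        rw [hPdef, Finset.sum_comm, Finset.mul_sum]
        refine Finset.sum_congr rfl fun i _ => ?_
        rw [Finset.mul_sum]
      have e3 : ∑ i ∈ T, ∑ j ∈ T, C * V * (if j < i then p j i else 0) = C * V * P := by
        rw [hPdef, Finset.mul_sum]
        refine Finset.sum_congr rfl fun i _ => ?_
        rw [Finset.mul_sum]
      have e4 : ∑ i ∈ T, ∑ j ∈ T, ((if i = j then C * V * w i else 0) +
          (C * V * (if i < j then p i j else 0) + C * V * (if j < i then p j i else 0))) =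
          C * V * W + (C * V * P + C * V * P) := by
        rw [← e1]
        nth_rewrite 1 [← e2]
        rw [← e3]
        simp only [Finset.sum_add_distrib]
      rw [e4]
      apply le_of_eq
      ring
    have h3 : μ.real (⋃ i ∈ T, E i) ≤ μ.real (U k) := by
      refine measureReal_mono ?_ (measure_ne_top _ _)
      refine iUnion₂_subset fun i hi => ?_
      exact subset_iUnion_of_subset i (subset_iUnion_of_subset (hT i hi) subset_rfl)
    have hW1 : 1 ≤ W := hM
    have h4 : (c * V * W) ^ 2 ≤ (C * (1 + 8 * C') * V * W ^ 2) * μ.real (U k) := by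
      have h5 : (c * V * W) ^ 2 ≤ (∑ i ∈ T, μ.real (E i)) ^ 2 := by
        apply pow_le_pow_left₀ _ h1
        positivity
      have h6 : C * V * W + 2 * (C * V * P) ≤ C * (1 + 8 * C') * V * W ^ 2 := by
        have h7 : C * V * W ≤ C * V * W ^ 2 := by
          apply mul_le_mul_of_nonneg_left _ (by positivity)
          nlinarith
        have h8 : C * V * P ≤ C * V * (C' * (2 * W) ^ 2) :=
          mul_le_mul_of_nonneg_left hP2 (by positivity)
        nlinarith
      refine h5.trans (hch.trans ?_)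
      apply mul_le_mul (h2.trans h6) h3 measureReal_nonneg (by positivity)
    have h7 : c ^ 2 / (C * (1 + 8 * C')) * V = (c * V * W) ^ 2 / (C * (1 + 8 * C') * V * W ^ 2) := by
      have : (1 + 8 * C') ≠ 0 := by positivity
      have hW0 : W ≠ 0 := by positivity
      field_simp
    rw [h7, div_le_iff₀ (by positivity)]
    linarith
  have hset : {x | ∃ᶠ n in atTop, x ∈ E n} = ⋂ k, U k := by
    ext x
    simp only [Set.mem_ofPred_eq, mem_iInter, U, mem_iUnion, frequently_atTop]
    constructor
    · intro h k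
      obtain ⟨i, h1, h2⟩ := h (max n₀ k)
      exact ⟨i, ⟨(le_max_left _ _).trans h1, (le_max_right _ _).trans h1⟩, h2⟩
    · intro h k
      obtain ⟨i, h1, h2⟩ := h k
      exact ⟨i, h1.2, h2⟩
  rw [hset]
  have hanti : Antitone U := by
    intro k l hkl
    refine iUnion_subset fun i => iUnion_subset fun hi => ?_
    exact subset_iUnion_of_subset i (subset_iUnion_of_subset ⟨hi.1, hkl.trans hi.2⟩ subset_rfl)
  have hlim := tendsto_measure_iInter_atTop (μ := μ) (fun k => (hUm k).nullMeasurableSet) hanti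
    ⟨0, measure_ne_top _ _⟩
  have hlim2 := (ENNReal.tendsto_toReal (measure_ne_top μ (⋂ k, U k))).comp hlim
  exact ge_of_tendsto' hlim2 hUlow

/-- the lemma of Borel and Cantelli for sets quasi-independent on average, with Lebesgue's density theorem -/
theorem t_KS2 : Pool.Agent.Helper2.NNQ.S_KS2 := by
  intro E w p c C C' hc hC hC' hE hw hns hp hsum h
  have hWm : MeasurableSet {x : ℝ | ∃ᶠ n in atTop, x ∈ E n} := by
    have : {x : ℝ | ∃ᶠ n in atTop, x ∈ E n} = ⋂ k : ℕ, ⋃ i : ℕ, ⋃ (_ : k ≤ i), E i := by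
      ext x
      simp only [Set.mem_ofPred_eq, mem_iInter, mem_iUnion, frequently_atTop]
      constructor
      · intro h k
        obtain ⟨i, h1, h2⟩ := h k
        exact ⟨i, h1, h2⟩
      · intro h k
        obtain ⟨i, h1, h2⟩ := h k
        exact ⟨i, h1, h2⟩
    rw [this]
    exact MeasurableSet.iInter fun k => MeasurableSet.iUnion fun i => MeasurableSet.iUnion fun _ => hE i
  set W := {x : ℝ | ∃ᶠ n in atTop, x ∈ E n} with hWdef
  have h1 := Besicovitch.ae_tendsto_measure_inter_div_of_measurableSet (volume : Measure ℝ) hWm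
  filter_upwards [h1] with u hu
  by_contra hnW
  have hnW' : u ∉ W := hnW
  rw [indicator_of_notMem hnW'] at hu
  obtain ⟨r₀, hr₀, hr⟩ := h u
  have hk : 0 < c ^ 2 / (C * (1 + 8 * C')) := by positivity
  have h2 : ∀ᶠ r in nhdsWithin (0 : ℝ) (Ioi 0), ENNReal.ofReal (c ^ 2 / (C * (1 + 8 * C'))) ≤
      volume (W ∩ Metric.closedBall u r) / volume (Metric.closedBall u r) := by
    filter_upwards [Ioo_mem_nhdsGT hr₀] with r hr1
    obtain ⟨n₀, hA, hB⟩ := hr r hr1.1 hr1.2
    have : IsFiniteMeasure (volume.restrict (Set.Icc (u - r) (u + r))) := inferInstance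
    have hreal : ∀ S : Set ℝ, MeasurableSet S →
        (volume.restrict (Set.Icc (u - r) (u + r))).real S = volume.real (S ∩ Set.Icc (u - r) (u + r)) := by
      intro S hS
      rw [measureReal_restrict_apply hS]
    have hV : 0 < 2 * r := by linarith [hr1.1]
    have key := limsup_lower2 (volume.restrict (Set.Icc (u - r) (u + r))) n₀ E w p c C C' (2 * r) hc hC hC' hV
      hw hp hE
      (fun i hi => by rw [hreal _ (hE i)]; exact (hA i hi).1)
      (fun i hi => by rw [hreal _ (hE i)]; exact (hA i hi).2)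
      (fun i j hi hij => by
        rw [hreal _ ((hE i).inter (hE j))]
        exact hB i j hi hij)
      hsum hns
    rw [hreal _ hWm] at key
    have hball : Metric.closedBall u r = Set.Icc (u - r) (u + r) := Real.closedBall_eq_Icc
    rw [ENNReal.le_div_iff_mul_le]
    · rw [hball, Real.volume_Icc, ← ENNReal.ofReal_mul hk.le]
      have e1 : u + r - (u - r) = 2 * r := by ring
      rw [e1]
      refine (ENNReal.ofReal_le_ofReal key).trans ?_
      exact ENNReal.ofReal_toReal_le
    · left
      exact (Metric.measure_closedBall_pos volume u hr1.1).ne'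
    · left
      exact measure_closedBall_lt_top.ne
  have h3 := ge_of_tendsto hu h2
  rw [nonpos_iff_eq_zero, ENNReal.ofReal_eq_zero] at h3
  linarith

end Pool.Agent.Helper20.NNQ
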